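import Pool.Agent.H629.TA.Stm

set_option autoImplicit false

/-! `TA-CP`: comparison of the number of triangles with a Poisson variable. -/

open Finset

namespace Pool.Agent.H314.TA.CP

open Pool.Agent.H629.TA

/-- partial sums of a convergent series of powers -/
theorem sum_bd (a : ℝ) (ha : a < -1) :
    ∃ S : ℝ, 0 ≤ S ∧ ∀ n : ℕ, ∑ j ∈ range n, ((j : ℝ) + 2) ^ a ≤ S := by
  have h1 : Summable (fun n : ℕ => (n : ℝ) ^ a) := Real.summable_nat_rpow.mpr ha
  have h2 : Summable (fun n : ℕ => ((n : ℝ) + 2) ^ a) := by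
    have h3 := (summable_nat_add_iff 2).mpr h1
    refine h3.congr fun n => ?_
    push_cast
    rfl
  have h0 : ∀ n : ℕ, 0 ≤ ((n : ℝ) + 2) ^ a := fun n => by positivity
  exact ⟨∑' n : ℕ, ((n : ℝ) + 2) ^ a, tsum_nonneg h0, fun n => h2.sum_le_tsum _ fun j _ => h0 j⟩

theorem chi_lt (m : ℕ) (δ : ℝ) (hm : 2 ≤ m) (hδ : 0 < δ) : chi m δ < 1 / 2 := by
  unfold chi
  have hm' : (2 : ℝ) ≤ m := by exact_mod_cast hm
  rw [div_lt_div_iff₀ (by positivity) (by norm_num)]
  linarith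

/-- the interpolation -/
noncomputable def D (m : ℕ) (δ : ℝ) (i : ℕ) (g : ℝ → ℝ) (j : ℕ) : ℝ :=
  Ex m δ j (fun h => Po (mT m δ i - mT m δ j) (fun b => g ((tri m h (j + 2) : ℝ) + b)))

theorem lip_shift {g : ℝ → ℝ} (hg : Lip g) (c : ℝ) : Lip (fun x => g (c + x)) := by
  intro x y
  have := hg (c + x) (c + y)
  have e : c + x - (c + y) = x - y := by ring
  rw [e] at this
  exact this

/-- one step of the interpolation -/
theorem step_bd (hER : S_ER) (hSR : S_SR) (hTR : S_TR) (hTW : S_TW)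
    (hPO : S_PO) (hSW : S_SW) (m : ℕ) (δ : ℝ) (hm : 2 ≤ m) (hδ : 0 < δ) (i j : ℕ) (g : ℝ → ℝ)
    (hg : Lip g) (hl : 0 ≤ mT m δ (j + 1) - mT m δ j) (hR : 0 ≤ mT m δ i - mT m δ (j + 1))
    (B1 B2 : ℝ) (hB1 : 0 ≤ B1)
    (h1 : Ex m δ j (fun h => (step m δ (j + 2) (fun h => (xi m (j + 2) h : ℝ)) h -
      (mT m δ (j + 1) - mT m δ j)) ^ 2) ≤ B1 ^ 2)
    (h2 : Ex m δ j (step m δ (j + 2) (fun h => (xi m (j + 2) h : ℝ) * ((xi m (j + 2) h : ℝ) - 1))) ≤
      B2) :
    |D m δ i g (j + 1) - D m δ i g j| ≤ B1 + 2 * B2 + 2 * (mT m δ (j + 1) - mT m δ j) ^ 2 := by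
  obtain ⟨lam, hlam⟩ : ∃ lam, lam = mT m δ (j + 1) - mT m δ j := ⟨_, rfl⟩
  obtain ⟨R, hRd⟩ : ∃ R, R = mT m δ i - mT m δ (j + 1) := ⟨_, rfl⟩
  rw [← hlam] at hl h1 ⊢
  rw [← hRd] at hR
  have hm1 : 1 ≤ m := by omega
  obtain ⟨ec, ea, em, emono, econg, eabs, ecs, -⟩ := hER m δ hm1 hδ j
  -- the two ends
  have e1 : D m δ i g j = Ex m δ j (fun h => Po lam (fun a => Po R (fun b =>
      g ((tri m h (j + 2) : ℝ) + (a + b))))) := by
    unfold D
    apply econg
    intro h _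
    have hs := (hPO (fun x => g ((tri m h (j + 2) : ℝ) + x)) (lip_shift hg _)).2.2.1 lam R hl hR
    have e : mT m δ i - mT m δ j = lam + R := by rw [hlam, hRd]; ring
    rw [e]
    exact hs
  have e2 : D m δ i g (j + 1) = Ex m δ j (fun h => step m δ (j + 2) (fun h' => Po R (fun b =>
      g ((tri m h (j + 2) : ℝ) + ((xi m (j + 2) h' : ℝ) + b)))) h) := by
    unfold D
    show Ex m δ j (step m δ (j + 2) _) = _
    apply econg
    intro h hv
    obtain ⟨-, -, -, -, scong⟩ := hSR m δ hm1 hδ (j + 2) h (by omega) hv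
    apply scong
    intro j' hj'
    obtain ⟨t1, t2, -⟩ := hTR m (j + 2) h j' (by omega) hj'
    have hx : ((tri m (Function.update h (j + 2 + 1) j') (j + 1 + 2) : ℕ) : ℝ) =
        (tri m h (j + 2) : ℝ) + (xi m (j + 2) (Function.update h (j + 2 + 1) j') : ℝ) := by
      have e : j + 1 + 2 = j + 2 + 1 := by omega
      rw [e]
      unfold xi
      rw [t1]
      rw [Nat.cast_sub t2]
      ring
    rw [← hRd]
    show Po R (fun b => g (((tri m (Function.update h (j + 2 + 1) j') (j + 1 + 2) : ℕ) : ℝ) + b)) =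
      Po R (fun b => g ((tri m h (j + 2) : ℝ) +
        ((xi m (j + 2) (Function.update h (j + 2 + 1) j') : ℝ) + b)))
    rw [hx]
    congr 1
    funext b
    rw [add_assoc]
  -- the pointwise inequality
  have e3 : ∀ h, Valid m h (j + 2) →
      |step m δ (j + 2) (fun h' => Po R (fun b =>
        g ((tri m h (j + 2) : ℝ) + ((xi m (j + 2) h' : ℝ) + b)))) h -
        Po lam (fun a => Po R (fun b => g ((tri m h (j + 2) : ℝ) + (a + b))))| ≤
      |step m δ (j + 2) (fun h => (xi m (j + 2) h : ℝ)) h - lam| +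
        2 * step m δ (j + 2) (fun h => (xi m (j + 2) h : ℝ) * ((xi m (j + 2) h : ℝ) - 1)) h +
        2 * lam ^ 2 := by
    intro h hv
    obtain ⟨-, hw, hd⟩ := hTW m (j + 2) h (by omega) hv
    have hL : 0 < tot m δ (j + 2) := by
      unfold tot
      have hm' : (2 : ℝ) ≤ m := by exact_mod_cast hm
      push_cast
      have : 0 ≤ (j : ℝ) := by positivity
      have e : (j : ℝ) + 2 - 1 = j + 1 := by ring
      rw [e]
      positivity
    have hp : ∀ a ∈ Icc 1 (j + 2), 0 ≤ wt m δ h (j + 2) a / tot m δ (j + 2) := by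
      intro a _
      unfold wt
      positivity
    have hs : ∑ a ∈ Icc 1 (j + 2), wt m δ h (j + 2) a / tot m δ (j + 2) = 1 := by
      rw [← Finset.sum_div, hw δ, div_self hL.ne']
    have hG : Lip (fun a => Po R (fun b => g ((tri m h (j + 2) : ℝ) + (a + b)))) :=
      (hPO (fun x => g ((tri m h (j + 2) : ℝ) + x)) (lip_shift hg _)).2.1 R hR
    exact hSW m (Icc 1 (j + 2)) _ hp hs (fun j' => xi m (j + 2) (Function.update h (j + 2 + 1) j'))
      (fun a => Po R (fun b => g ((tri m h (j + 2) : ℝ) + (a + b)))) lam hG hl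
  -- the expectations
  have e4 : |Ex m δ j (fun h => |step m δ (j + 2) (fun h => (xi m (j + 2) h : ℝ)) h - lam|)| ≤
      B1 := by
    apply abs_le_of_sq_le_sq _ hB1
    have hc := ecs (fun h => |step m δ (j + 2) (fun h => (xi m (j + 2) h : ℝ)) h - lam|) (fun _ => 1)
    simp only [mul_one, one_pow, sq_abs] at hc
    rw [ec 1, mul_one] at hc
    exact hc.trans h1
  have e5 : D m δ i g (j + 1) - D m δ i g j = Ex m δ j (fun h =>
      step m δ (j + 2) (fun h' => Po R (fun b =>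
        g ((tri m h (j + 2) : ℝ) + ((xi m (j + 2) h' : ℝ) + b)))) h +
        (-1) * Po lam (fun a => Po R (fun b => g ((tri m h (j + 2) : ℝ) + (a + b))))) := by
    rw [ea, em, e1, e2]
    ring
  rw [e5]
  refine (eabs _).trans ?_
  have e6 : Ex m δ j (fun h => (|step m δ (j + 2) (fun h => (xi m (j + 2) h : ℝ)) h - lam| +
        2 * step m δ (j + 2) (fun h => (xi m (j + 2) h : ℝ) * ((xi m (j + 2) h : ℝ) - 1)) h) +
        2 * lam ^ 2) =
      Ex m δ j (fun h => |step m δ (j + 2) (fun h => (xi m (j + 2) h : ℝ)) h - lam|) +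
      2 * Ex m δ j (step m δ (j + 2)
        (fun h => (xi m (j + 2) h : ℝ) * ((xi m (j + 2) h : ℝ) - 1))) + 2 * lam ^ 2 := by
    rw [ea, ea, em, ec]
  calc Ex m δ j _ ≤ Ex m δ j (fun h =>
        (|step m δ (j + 2) (fun h => (xi m (j + 2) h : ℝ)) h - lam| +
        2 * step m δ (j + 2) (fun h => (xi m (j + 2) h : ℝ) * ((xi m (j + 2) h : ℝ) - 1)) h) +
        2 * lam ^ 2) := by
        apply emono
        intro h hv
        have := e3 h hv
        rw [neg_one_mul, ← sub_eq_add_neg]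
        exact this
    _ = _ := e6
    _ ≤ _ := by
        have := (abs_le.mp e4).2
        linarith

/-- `TA-CP` -/
theorem t_CP : S_ER → S_SR → S_UP → S_TR → S_TW → S_E3 → S_PO → S_SW → S_CP := by
  intro hER hSR _ hTR hTW hE3 hPO hSW m δ hm hδ
  obtain ⟨c, C, hc, hC, hE⟩ := hE3 m δ hm hδ
  obtain ⟨e, he⟩ : ∃ e, e = (2 - tt m δ) / 2 := ⟨_, rfl⟩
  have hepos : 0 < e := by
    have := chi_lt m δ hm hδ
    rw [he]
    unfold tt
    linarith
  obtain ⟨S1, hS1, hb1⟩ := sum_bd (-1 - e) (by linarith)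
  obtain ⟨S2', hS2, hb2⟩ := sum_bd (-2) (by norm_num)
  have hm1 : 1 ≤ m := by omega
  have hmono : Monotone (mT m δ) := by
    apply monotone_nat_of_le_succ
    intro n
    have h1 := (hE n).2.2.1
    have : 0 ≤ c / ((n : ℝ) + 2) := by positivity
    linarith
  refine ⟨3 * C * S1 + 2 * C ^ 2 * S2', by positivity, ?_⟩
  intro i g hg
  have hD0 : D m δ i g 0 = Po (mT m δ i) g := by
    have h0 := (hE 0).1
    have ht : (tri m (fun _ _ => 0) (0 + 2) : ℝ) = 0 := h0
    unfold D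
    rw [h0]
    show Po (mT m δ i - 0) (fun b => g ((tri m (fun _ _ => 0) (0 + 2) : ℝ) + b)) = _
    rw [ht]
    simp only [sub_zero, zero_add]
  have hDi : D m δ i g i = Ex m δ i (fun h => g (tri m h (i + 2))) := by
    unfold D
    apply (hER m δ hm1 hδ i).2.2.2.2.1
    intro h _
    rw [sub_self]
    have := (hPO (fun x => g ((tri m h (i + 2) : ℝ) + x)) (lip_shift hg _)).1
    rw [this]
    simp only [add_zero]
  rw [← hD0, ← hDi]
  have hstep : ∀ j, j < i → |D m δ i g (j + 1) - D m δ i g j| ≤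
      3 * C * ((j : ℝ) + 2) ^ (-1 - e) + 2 * C ^ 2 * ((j : ℝ) + 2) ^ (-2 : ℝ) := by
    intro j hj
    obtain ⟨-, -, a1, a2, -, a4, a5⟩ := hE j
    rw [← he] at a4 a5
    have hl : 0 ≤ mT m δ (j + 1) - mT m δ j := sub_nonneg.mpr (hmono (Nat.le_succ j))
    have hR : 0 ≤ mT m δ i - mT m δ (j + 1) := sub_nonneg.mpr (hmono hj)
    have hB1 : 0 ≤ C * ((j : ℝ) + 2) ^ (-1 - e) := by positivity
    have key := step_bd hER hSR hTR hTW hPO hSW m δ hm hδ i j g hg hl hR _ _ hB1 a4 a5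
    have hsq : (mT m δ (j + 1) - mT m δ j) ^ 2 ≤ C ^ 2 * ((j : ℝ) + 2) ^ (-2 : ℝ) := by
      have h1 : (mT m δ (j + 1) - mT m δ j) ^ 2 ≤ (C / ((j : ℝ) + 2)) ^ 2 :=
        pow_le_pow_left₀ hl a2 2
      have h2 : (C / ((j : ℝ) + 2)) ^ 2 = C ^ 2 * ((j : ℝ) + 2) ^ (-2 : ℝ) := by
        rw [Real.rpow_neg (by positivity)]
        have : ((j : ℝ) + 2) ^ (2 : ℝ) = ((j : ℝ) + 2) ^ 2 := by
          exact_mod_cast Real.rpow_natCast ((j : ℝ) + 2) 2
        rw [this, div_pow]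
        rfl
      rw [← h2]
      exact h1
    linarith
  have htel : ∀ n, n ≤ i → |D m δ i g n - D m δ i g 0| ≤
      ∑ j ∈ range n, (3 * C * ((j : ℝ) + 2) ^ (-1 - e) + 2 * C ^ 2 * ((j : ℝ) + 2) ^ (-2 : ℝ)) := by
    intro n
    induction n with
    | zero => intro _; simp
    | succ n ih =>
      intro hn
      rw [Finset.sum_range_succ]
      have h1 := ih (by omega)
      have h2 := hstep n (by omega)
      have h3 : D m δ i g (n + 1) - D m δ i g 0 =
          (D m δ i g n - D m δ i g 0) + (D m δ i g (n + 1) - D m δ i g n) := by ring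
      rw [h3]
      exact (abs_add_le _ _).trans (add_le_add h1 h2)
  refine (htel i le_rfl).trans ?_
  rw [Finset.sum_add_distrib, ← Finset.mul_sum, ← Finset.mul_sum]
  have h1 := mul_le_mul_of_nonneg_left (hb1 i) (show 0 ≤ 3 * C by positivity)
  have h2 := mul_le_mul_of_nonneg_left (hb2 i) (show 0 ≤ 2 * C ^ 2 by positivity)
  exact add_le_add h1 h2

end Pool.Agent.H314.TA.CP
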